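import Pool.Agent.H25.SW.ExC

/-!
# The exchange of two neighbouring coordinates of a list: the other inequality

`exchB`: at the window `w` the coordinate `k₂` has the number `f₂` over `I` and the number `M` over
`I` and `k₁`, given by a polynomial label; `k₁` has the number `f₁` over `I`. If `k₂` has the number
`f₂'` over `I` at the window `w'`, then the number of `k₁` over `I` at `w'` is at least
`f₁ + min (f₂' - f₂) (M - f₂)`.
`two_le`: two neighbouring coordinates at one window. `exchB_fam`: one family.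
-/

set_option autoImplicit false

namespace Pool.SWX

open Finset Real
open MvPolynomial (eval)
open Pool.Agent.H49.Ent Pool.Agent.H32.Dense Pool.STK Pool.KA Pool.KSAT Pool.K2S Pool.PB Pool.S6C
open Pool.GEN Pool.GRW Pool.TOP Pool.BSM

variable {m J : ℕ}

/-- The digits of near numbers. -/
theorem dg_near {F : Fam m J} {Q : ℕ} {ω ω' : F.Ω} {k : Fin m} {L : ℝ}
    (h : |F.x ω k - F.x ω' k| ≤ L) : |((F.X Q ω k - F.X Q ω' k : ℤ) : ℝ)| ≤ 2 ^ Q * L + 1 :=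
  fl_le' h

/-- Numbers with the same digits. -/
theorem dg_eq {F : Fam m J} {Q : ℕ} {ω ω' : F.Ω} {k : Fin m} (h : F.X Q ω k = F.X Q ω' k) :
    |F.x ω k - F.x ω' k| ≤ 1 / 2 ^ Q := by
  have hQ0 : (0 : ℝ) < 2 ^ Q := by positivity
  have h4 := Int.abs_sub_lt_one_of_floor_eq_floor h
  rw [← mul_sub, abs_mul, abs_of_pos hQ0] at h4
  rw [le_div_iff₀ hQ0]
  linarith

/-- The digits behind the first `Q`. -/
theorem dg_tail {F : Fam m J} {q : F.Ω → ℝ} (hq : IsLaw q) {Q : ℕ} (hQ : Q ≤ J) (k : Fin m)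
    {T : Type*} (c : F.Ω → T) :
    CH q (fun ω => F.X J ω k) (fun ω => (F.X Q ω k, c ω)) ≤ ((J : ℝ) - Q) * Real.log 2 + 2 := by
  have h1 := CH_le_int hq.nonneg hq.sum_one (fun ω => F.X J ω k) (fun ω => (F.X Q ω k, c ω))
    (fun _ => 2 * 2 ^ (J - Q) + 1) (fun ω ω' _ _ h => by
      refine (dg_near (dg_eq (Prod.ext_iff.mp h).1)).trans ?_
      have e2 : (2 : ℝ) ^ J = 2 ^ (J - Q) * 2 ^ Q := by
        rw [← pow_add]
        congr 1
        omega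
      have e3 : (2 : ℝ) ^ J * (1 / 2 ^ Q) = 2 ^ (J - Q) := by
        rw [e2]
        field_simp
      rw [e3]
      have : (0 : ℝ) < 2 ^ (J - Q) := by positivity
      linarith)
  rw [Ex_const hq.sum_one] at h1
  exact h1.trans (log_cell hQ)

/-- Counting digits. -/
theorem dg_cnt {F : Fam m J} {q : F.Ω → ℝ} (hq : IsLaw q) {Q : ℕ} (k : Fin m)
    {T : Type*} (c : F.Ω → T) {L : ℝ} (h : ∀ ω ω', 0 < q ω → 0 < q ω' → c ω = c ω' →
      |F.x ω k - F.x ω' k| ≤ L) :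
    CH q (fun ω => F.X Q ω k) c ≤ Real.log (2 * (2 ^ Q * L + 1) + 1) := by
  have h1 := CH_le_int hq.nonneg hq.sum_one (fun ω => F.X Q ω k) c (fun _ => 2 ^ Q * L + 1)
    (fun ω ω' hω hω' hc => dg_near (h ω ω' hω hω' hc))
  rwa [Ex_const hq.sum_one] at h1

/-- **One family.** -/
theorem exchB_fam {F : Fam m J} {GD : F.Ω → Prop} (hpos : 0 < Pe F.p GD) {I : Finset (Fin m)}
    {k₁ k₂ : Fin m} {N : ℕ} {Γ : ℝ} (hΓ : 0 ≤ Γ) {a₀ a₁ P₁ P₃ P₅ Qa Qb : ℕ} (ha : a₀ ≤ a₁)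
    (ha1 : a₁ ≤ J) (hQa : Qa ≤ J) (hQb : Qb ≤ J) {V : Type} {z : PtT F → V} {z' : LnT F → V}
    {lG : F.Ω → Fin N} (hz : ∀ ω, GD ω → z (ptr F J ω) = z' (slam F a₀ ω))
    (hG : ∀ ω ω', GD ω → GD ω' → F.T ω = F.T ω' → z' (slam F a₀ ω) = z' (slam F a₀ ω') →
      (∀ i ∈ I, F.X J ω i = F.X J ω' i) → lG ω = lG ω' →
      |F.x ω k₂ - F.x ω' k₂| ≤ 2 / 2 ^ P₁ + Γ * |F.x ω k₁ - F.x ω' k₁|)
    (hb1 : Cel F I k₁ a₀ P₃ GD) (hc2 : Cel F I k₂ a₁ P₅ GD) {e₂ e₁' : ℝ}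
    (hd2 : ∀ (V : Type) (z : PtT F → V) (z' : LnT F → V),
      (∀ ω, GD ω → z (ptr F J ω) = z' (slam F a₀ ω)) →
      e₂ ≤ CH (Pool.Agent.H49.Ent.cond F.p GD True) (fun ω => F.X J ω k₂)
        (fun ω => (ub I (F.X J ω), z' (slam F a₀ ω), F.W ω)))
    (he1 : ∀ (V : Type) (z : PtT F → V) (z' : LnT F → V),
      (∀ ω, GD ω → z (ptr F J ω) = z' (slam F a₁ ω)) →
      e₁' ≤ CH (Pool.Agent.H49.Ent.cond F.p GD True) (fun ω => F.X J ω k₁)
        (fun ω => (ub I (F.X J ω), z' (slam F a₁ ω), F.W ω))) :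
    e₁' + e₂ ≤ Real.log (2 * (2 ^ Qb * (2 / 2 ^ P₅) + 1) + 1) +
      Real.log (2 * (2 ^ Qa * (2 / 2 ^ P₃) + 1) + 1) +
      (Real.log N + Real.log (2 * (2 ^ Qb * (2 / 2 ^ P₁ + Γ * (1 / 2 ^ Qa)) + 1) + 1)) +
      (((J : ℝ) - Qb) * Real.log 2 + 2) + (((J : ℝ) - Qa) * Real.log 2 + 2) := by
  classical
  obtain ⟨Vb, zb, zb', hzb, hcb⟩ := hb1
  obtain ⟨Vc, zc, zc', hzc, hcc⟩ := hc2
  have hq := isLaw_cond F.isLaw hpos
  obtain ⟨q, hqd⟩ : ∃ q, q = Pool.Agent.H49.Ent.cond F.p GD True := ⟨_, rfl⟩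
  rw [← hqd] at hq hd2 he1
  have hqA : ∀ ω, 0 < q ω → GD ω := fun ω hω => by
    rw [hqd] at hω
    exact of_eq_true ((cond_pos_iff F.isLaw.nonneg GD True ω).1 hω).2
  have hco : ∀ ω, ((slam F a₁ ω).1, (slam F a₁ ω).2.1, (slam F a₁ ω).2.2 / 2 ^ (a₁ - a₀)) =
      slam F a₀ ω := fun ω => (slam_coarse F ha ha1 ω).symm
  have g2 := hd2 (V × Vb) (fun x => (z x, zb x)) (fun s => (z' s, zb' s))
    (fun ω hω => Prod.ext (hz ω hω) (hzb ω hω))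
  have g1 := he1 (V × Vb × Vc) (fun x => (z x, zb x, zc x)) (fun s =>
      (z' (s.1, s.2.1, s.2.2 / 2 ^ (a₁ - a₀)), zb' (s.1, s.2.1, s.2.2 / 2 ^ (a₁ - a₀)), zc' s))
    (fun ω hω => by
      rw [hco]
      exact Prod.ext (hz ω hω) (Prod.ext (hzb ω hω) (hzc ω hω)))
  obtain ⟨C₀, hC₀⟩ : ∃ C₀ : F.Ω → (Fin m → ℤ) × (V × Vb) × (ℕ × F.ζ), C₀ = fun ω =>
      (ub I (F.X J ω), (z' (slam F a₀ ω), zb' (slam F a₀ ω)), F.W ω) := ⟨_, rfl⟩
  obtain ⟨C₁, hC₁⟩ : ∃ C₁ : F.Ω → (Fin m → ℤ) × (V × Vb × Vc) × (ℕ × F.ζ), C₁ = fun ω =>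
      (ub I (F.X J ω), (z' ((slam F a₁ ω).1, (slam F a₁ ω).2.1, (slam F a₁ ω).2.2 / 2 ^ (a₁ - a₀)),
        zb' ((slam F a₁ ω).1, (slam F a₁ ω).2.1, (slam F a₁ ω).2.2 / 2 ^ (a₁ - a₀)),
        zc' (slam F a₁ ω)), F.W ω) := ⟨_, rfl⟩
  rw [← hC₀] at g2
  rw [← hC₁] at g1
  -- the data
  have d0 : ∀ ω ω', C₀ ω = C₀ ω' → F.T ω = F.T ω' ∧ z' (slam F a₀ ω) = z' (slam F a₀ ω') ∧
      zb' (slam F a₀ ω) = zb' (slam F a₀ ω') ∧ (∀ i ∈ I, F.X J ω i = F.X J ω' i) := by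
    intro ω ω' h
    rw [hC₀] at h
    have h1 := Prod.ext_iff.mp h
    have h2 := Prod.ext_iff.mp h1.2
    have h3 := Prod.ext_iff.mp h2.1
    refine ⟨congrArg Prod.fst h2.2, h3.1, h3.2, fun i hi => ?_⟩
    have := congrFun h1.1 i
    simp only [ub, if_pos hi] at this
    exact this
  have d1 : ∀ ω ω', C₁ ω = C₁ ω' → C₀ ω = C₀ ω' ∧ zc' (slam F a₁ ω) = zc' (slam F a₁ ω') := by
    intro ω ω' h
    rw [hC₁] at h
    simp only [hco] at h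
    have h1 := Prod.ext_iff.mp h
    have h2 := Prod.ext_iff.mp h1.2
    have h3 := Prod.ext_iff.mp h2.1
    have h4 := Prod.ext_iff.mp h3.2
    refine ⟨?_, h4.2⟩
    rw [hC₀]
    exact Prod.ext h1.1 (Prod.ext (Prod.ext h3.1 h4.1) h2.2)
  -- (5)
  have s5 : CH q (fun ω => F.X Qb ω k₂) C₁ ≤
      Real.log (2 * (2 ^ Qb * (2 / 2 ^ P₅) + 1) + 1) :=
    dg_cnt hq k₂ C₁ fun ω ω' hω hω' h => by
      have h1 := d1 ω ω' h
      have h2 := d0 ω ω' h1.1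
      exact hcc ω ω' (hqA ω hω) (hqA ω' hω') h2.1 h1.2 h2.2.2.2
  -- (3)
  have s3 : CH q (fun ω => F.X Qa ω k₁) C₀ ≤
      Real.log (2 * (2 ^ Qa * (2 / 2 ^ P₃) + 1) + 1) :=
    dg_cnt hq k₁ C₀ fun ω ω' hω hω' h => by
      have h2 := d0 ω ω' h
      exact hcb ω ω' (hqA ω hω) (hqA ω' hω') h2.1 h2.2.2.1 h2.2.2.2
  -- (1)
  have s1 : CH q (fun ω => F.X Qb ω k₂) (fun ω => (F.X Qa ω k₁, C₀ ω)) ≤
      Real.log N + Real.log (2 * (2 ^ Qb * (2 / 2 ^ P₁ + Γ * (1 / 2 ^ Qa)) + 1) + 1) := by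
    refine CH_lab hq.nonneg hq.sum_one _ _ lG fun ω ω' hω hω' h hl => dg_near ?_
    have h1 := Prod.ext_iff.mp h
    have h2 := d0 ω ω' h1.2
    refine (hG ω ω' (hqA ω hω) (hqA ω' hω') h2.1 h2.2.1 h2.2.2.2 hl).trans ?_
    have h3 := mul_le_mul_of_nonneg_left (dg_eq h1.1) hΓ
    linarith
  -- (2)
  have s2 : e₂ ≤ CH q (fun ω => F.X Qb ω k₂) C₀ + (((J : ℝ) - Qb) * Real.log 2 + 2) :=
    (g2.trans (CH_le_add hq.nonneg (fun ω => F.X J ω k₂) (fun ω => F.X Qb ω k₂) C₀)).trans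
      (add_le_add_right (dg_tail hq hQb k₂ C₀) _)
  -- (4)
  have s4 := CH_bayes hq.nonneg (fun ω => F.X Qa ω k₁) (fun ω => F.X Qb ω k₂) C₀
  -- (6)
  have s6 : CH q (fun ω => F.X Qa ω k₁) C₁ ≤ CH q (fun ω => F.X Qb ω k₂) C₁ +
      CH q (fun ω => F.X Qa ω k₁) (fun ω => (F.X Qb ω k₂, C₀ ω)) := by
    refine (CH_le_add hq.nonneg _ (fun ω => F.X Qb ω k₂) C₁).trans (add_le_add_right ?_ _)
    refine CH_mono_cond hq.nonneg fun ω ω' _ _ h => ?_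
    have h1 := Prod.ext_iff.mp h
    exact Prod.ext h1.1 (d1 ω ω' h1.2).1
  -- (7)
  have s7 : e₁' ≤ CH q (fun ω => F.X Qa ω k₁) C₁ + (((J : ℝ) - Qa) * Real.log 2 + 2) :=
    (g1.trans (CH_le_add hq.nonneg (fun ω => F.X J ω k₁) (fun ω => F.X Qa ω k₁) C₁)).trans
      (add_le_add_right (dg_tail hq hQa k₁ C₁) _)
  linarith only [s1, s2, s3, s4, s5, s6, s7]

/-! ### Classes -/

theorem log_bdK {x E K : ℝ} (hK : 0 ≤ K) (hx : 0 ≤ x) (h : x ≤ K * Real.exp E) (hE : 0 ≤ E) :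
    Real.log (2 * (x + 1) + 1) ≤ Real.log (2 * K + 3) + E := by
  have h1 : 1 ≤ Real.exp E := Real.one_le_exp hE
  calc Real.log (2 * (x + 1) + 1) ≤ Real.log ((2 * K + 3) * Real.exp E) :=
        Real.log_le_log (by linarith) (by nlinarith)
    _ = Real.log (2 * K + 3) + E := by
        rw [Real.log_mul (by linarith) (Real.exp_pos _).ne', Real.log_exp]

theorem pow_fl {a : ℝ} (ha : 0 ≤ a) (J : ℕ) :
    (2 : ℝ) ^ ⌊a * J⌋₊ ≤ Real.exp (a * (Real.log 2 * J)) := by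
  have h2 : (2 : ℝ) ^ ⌊a * J⌋₊ = Real.exp ((⌊a * J⌋₊ : ℝ) * Real.log 2) := by
    rw [← Real.rpow_natCast, Real.rpow_def_of_pos two_pos, mul_comm]
  rw [h2]
  refine Real.exp_le_exp.2 ?_
  have h1 := Nat.floor_le (show 0 ≤ a * (J : ℝ) by positivity)
  have := mul_le_mul_of_nonneg_right h1 (Real.log_pos one_lt_two).le
  linarith

theorem tail_fl {a : ℝ} (J : ℕ) :
    ((J : ℝ) - ⌊a * J⌋₊) * Real.log 2 + 2 ≤ (1 - a) * (Real.log 2 * J) + 3 := by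
  have hl21 : Real.log 2 ≤ 1 := by
    have := Real.log_two_lt_d9
    linarith only [this]
  have a1 := Nat.lt_floor_add_one (a * (J : ℝ))
  have a3 : ((J : ℝ) - ⌊a * J⌋₊) ≤ (1 - a) * J + 1 := by
    linarith only [a1]
  have a4 := mul_le_mul_of_nonneg_right a3 (Real.log_pos one_lt_two).le
  linarith only [a4, hl21]

/-- Two neighbouring coordinates. -/
theorem two_le {S : PCl m} (hne : S.Ne) (hpos : Bas S (fun _ F A => 0 < Pe F.p A))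
    {I : Finset (Fin m)} {k₁ k₂ : Fin m} {w f₁ f₂ M : ℝ} (hf₁ : f₁ ≤ 1) (hM : M ≤ 1)
    (ha : ∀ h : ℝ, 0 < h → ∀ τ : ℝ, 0 < τ → Bas S (fun J F A =>
      ∃ B : F.Ω → Prop, Sub B A ∧ Real.exp (-(τ * J)) * Pe F.p A ≤ Pe F.p B ∧
        Cel F (insert k₁ I) k₂ ⌊w * J⌋₊ ⌊(M - h) * J⌋₊ B))
    (hb1 : ∀ h : ℝ, 0 < h → ∀ τ : ℝ, 0 < τ → Bas S (fun J F A =>
      ∃ B : F.Ω → Prop, Sub B A ∧ Real.exp (-(τ * J)) * Pe F.p A ≤ Pe F.p B ∧
        Cel F I k₁ ⌊w * J⌋₊ ⌊(f₁ - h) * J⌋₊ B))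
    (hd2 : ∀ ρ : ℝ, 0 < ρ → Bas S (fun J F A => ∀ (V : Type) (z : PtT F → V) (z' : LnT F → V),
      (∀ ω, A ω → z (ptr F J ω) = z' (slam F ⌊w * J⌋₊ ω)) →
      (1 - f₂ - ρ) * Real.log 2 * J ≤ CH (Pool.Agent.H49.Ent.cond F.p A True)
        (fun ω => F.X J ω k₂) (fun ω => (ub I (F.X J ω), z' (slam F ⌊w * J⌋₊ ω), F.W ω)))) :
    f₁ + M ≤ 1 + f₂ := by
  by_contra hcon
  push Not at hcon
  obtain ⟨D, hD⟩ : ∃ D, D = f₁ + M - (1 + f₂) := ⟨_, rfl⟩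
  have hD0 : 0 < D := by rw [hD]; linarith
  have hl2 : 1 / 2 < Real.log 2 := by
    have := Real.log_two_gt_d9
    linarith only [this]
  obtain ⟨κ, hκ, k1⟩ := Pool.ZFN.bas_sh ((hd2 (D / 4) (by linarith)).and hpos)
  obtain ⟨Φ, hΦ⟩ : ∃ Φ : Fin 2 → Stat m, Φ = fun j J F B => match j with
      | 0 => Cel F (insert k₁ I) k₂ ⌊w * J⌋₊ ⌊(M - D / 8) * J⌋₊ B
      | 1 => Cel F I k₁ ⌊w * J⌋₊ ⌊(f₁ - D / 8) * J⌋₊ B := ⟨_, rfl⟩
  have g2 := bas_iter (S := S) (Φ := Φ) (fun j J F A B hB hh => by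
      rw [hΦ] at hh ⊢
      match j with
      | 0 => exact Cel.sub hh hB
      | 1 => exact Cel.sub hh hB) (fun j τ hτ => by
      rw [hΦ]
      match j with
      | 0 => exact ha (D / 8) (by linarith) τ hτ
      | 1 => exact hb1 (D / 8) (by linarith) τ hτ) hκ
  obtain ⟨J₁, hJ₁⟩ := exists_nat_gt (6 / (D / 4))
  refine bas_no hne ((k1.and g2).mono J₁ ?_)
  rintro J hJ F A ⟨k2, B, k3, k4, k5⟩
  have hJ0 : (0 : ℝ) ≤ J := Nat.cast_nonneg J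
  have hJ1 : (J₁ : ℝ) ≤ J := by exact_mod_cast hJ
  have hJ2 := hJ₁.trans_le hJ1
  rw [div_lt_iff₀ (by linarith)] at hJ2
  obtain ⟨k6, hB⟩ := k2 B k3 k4
  rw [hΦ] at k5
  have l0 : Cel F (insert k₁ I) k₂ ⌊w * J⌋₊ ⌊(M - D / 8) * J⌋₊ B := k5 0
  have l1 : Cel F I k₁ ⌊w * J⌋₊ ⌊(f₁ - D / 8) * J⌋₊ B := k5 1
  obtain ⟨V, z, z', c1, c2⟩ := l0
  obtain ⟨V', y, y', c3, c4⟩ := l1
  have hq := isLaw_cond F.isLaw hB
  have hqA : ∀ ω, 0 < Pool.Agent.H49.Ent.cond F.p B True ω → B ω := fun ω hω =>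
    of_eq_true ((cond_pos_iff F.isLaw.nonneg B True ω).1 hω).2
  have h1 := k6 (V × V') (fun x => (z x, y x)) (fun s => (z' s, y' s))
    (fun ω hω => Prod.ext (c1 ω hω) (c3 ω hω))
  have h2 := h1.trans (CH_le_add hq.nonneg _ (fun ω => F.X J ω k₁) _)
  have h3 := cel_ent c4 (Pool.GEN.fl_le (show f₁ - D / 8 ≤ 1 by linarith) J) hq hqA
    (c := fun ω => (ub I (F.X J ω), (z' (slam F ⌊w * J⌋₊ ω), y' (slam F ⌊w * J⌋₊ ω)), F.W ω))
    fun ω ω' _ _ hc => by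
      have m1 := Prod.ext_iff.mp hc
      have m2 := Prod.ext_iff.mp m1.2
      refine ⟨fun i hi => ?_, (Prod.ext_iff.mp m2.1).2, congrArg Prod.fst m2.2⟩
      have := congrFun m1.1 i
      simp only [ub, if_pos hi] at this
      exact this
  have h4 := cel_ent c2 (Pool.GEN.fl_le (show M - D / 8 ≤ 1 by linarith) J) hq hqA
    (c := fun ω => (F.X J ω k₁, (ub I (F.X J ω), (z' (slam F ⌊w * J⌋₊ ω),
      y' (slam F ⌊w * J⌋₊ ω)), F.W ω))) fun ω ω' _ _ hc => by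
      have m0 := Prod.ext_iff.mp hc
      have m1 := Prod.ext_iff.mp m0.2
      have m2 := Prod.ext_iff.mp m1.2
      refine ⟨fun i hi => ?_, (Prod.ext_iff.mp m2.1).1, congrArg Prod.fst m2.2⟩
      rcases Finset.mem_insert.1 hi with h | h
      · rw [h]
        exact m0.1
      · have := congrFun m1.1 i
        simp only [ub, if_pos h] at this
        exact this
  have h5 := h2.trans (add_le_add (h3.trans (tail_fl J)) (h4.trans (tail_fl J)))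
  have a5 : (1 - f₂ - D / 4) * Real.log 2 * J = (1 - (f₁ - D / 8)) * (Real.log 2 * J) +
      (1 - (M - D / 8)) * (Real.log 2 * J) + D / 2 * (Real.log 2 * J) := by
    rw [hD]
    ring
  have a6 : D / 2 * (1 / 2 * J) ≤ D / 2 * (Real.log 2 * J) :=
    mul_le_mul_of_nonneg_left (mul_le_mul_of_nonneg_right hl2.le hJ0) (by linarith)
  linarith only [h5, a5, a6, hJ2]

/-- **The exchange, the other inequality.** -/
theorem exchB {S : PCl m} (hne : S.Ne) (hpos : Bas S (fun _ F A => 0 < Pe F.p A))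
    {I : Finset (Fin m)} {k₁ k₂ : Fin m} (h1 : k₁ ∉ I) {w w' f₁ f₂ M f₁' f₂' : ℝ}
    (hww : w ≤ w') (hw1 : w' ≤ 1) (hf₁ : 0 ≤ f₁) (hf₁1 : f₁ ≤ 1) (hf₂ : 0 ≤ f₂) (hM : M ≤ 1)
    (hf₂' : f₂' ≤ 1)
    (ha : ∀ h : ℝ, 0 < h → ∃ K : ℕ, ∀ τ : ℝ, 0 < τ → Bas S (fun J F A =>
      ∃ B : F.Ω → Prop, Sub B A ∧ Real.exp (-(τ * J)) * Pe F.p A ≤ Pe F.p B ∧
        LbR 1 F (insert k₁ I) k₂ K ⌊w * J⌋₊ ⌊(M - h) * J⌋₊ B))
    (hb : ∀ h : ℝ, 0 < h → ∀ τ : ℝ, 0 < τ → Bas S (fun J F A =>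
      ∃ B : F.Ω → Prop, Sub B A ∧ Real.exp (-(τ * J)) * Pe F.p A ≤ Pe F.p B ∧
        Cel F I k₂ ⌊w * J⌋₊ ⌊(f₂ - h) * J⌋₊ B))
    (hb1 : ∀ h : ℝ, 0 < h → ∀ τ : ℝ, 0 < τ → Bas S (fun J F A =>
      ∃ B : F.Ω → Prop, Sub B A ∧ Real.exp (-(τ * J)) * Pe F.p A ≤ Pe F.p B ∧
        Cel F I k₁ ⌊w * J⌋₊ ⌊(f₁ - h) * J⌋₊ B))
    (hc2 : ∀ h : ℝ, 0 < h → ∀ τ : ℝ, 0 < τ → Bas S (fun J F A =>
      ∃ B : F.Ω → Prop, Sub B A ∧ Real.exp (-(τ * J)) * Pe F.p A ≤ Pe F.p B ∧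
        Cel F I k₂ ⌊w' * J⌋₊ ⌊(f₂' - h) * J⌋₊ B))
    (hd : ∀ ρ : ℝ, 0 < ρ → Bas S (fun J F A => ∀ (V : Type) (z : PtT F → V) (z' : LnT F → V),
      (∀ ω, A ω → z (ptr F J ω) = z' (slam F ⌊w * J⌋₊ ω)) →
      (1 - f₁ - ρ) * Real.log 2 * J ≤ CH (Pool.Agent.H49.Ent.cond F.p A True)
        (fun ω => F.X J ω k₁) (fun ω => (ub I (F.X J ω), z' (slam F ⌊w * J⌋₊ ω), F.W ω))))
    (hd2 : ∀ ρ : ℝ, 0 < ρ → Bas S (fun J F A => ∀ (V : Type) (z : PtT F → V) (z' : LnT F → V),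
      (∀ ω, A ω → z (ptr F J ω) = z' (slam F ⌊w * J⌋₊ ω)) →
      (1 - f₂ - ρ) * Real.log 2 * J ≤ CH (Pool.Agent.H49.Ent.cond F.p A True)
        (fun ω => F.X J ω k₂) (fun ω => (ub I (F.X J ω), z' (slam F ⌊w * J⌋₊ ω), F.W ω))))
    (he1 : ∀ ρ : ℝ, 0 < ρ → Bas S (fun J F A => ∀ (V : Type) (z : PtT F → V) (z' : LnT F → V),
      (∀ ω, A ω → z (ptr F J ω) = z' (slam F ⌊w' * J⌋₊ ω)) →
      (1 - f₁' - ρ) * Real.log 2 * J ≤ CH (Pool.Agent.H49.Ent.cond F.p A True)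
        (fun ω => F.X J ω k₁) (fun ω => (ub I (F.X J ω), z' (slam F ⌊w' * J⌋₊ ω), F.W ω)))) :
    f₁ + min (f₂' - f₂) (M - f₂) ≤ f₁' := by
  by_contra hcon
  push Not at hcon
  have hmono : f₁ ≤ f₁' := by
    refine cel_le hne hpos (w := w') hf₁1 (fun h hh τ hτ => (hb1 h hh τ hτ).mono 0 ?_) he1
    rintro J - F A ⟨B, k1, k2, k3⟩
    exact ⟨B, k1, k2, k3.win (Nat.floor_le_floor (mul_le_mul_of_nonneg_right hww
      (Nat.cast_nonneg J)))⟩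
  have hone : f₁ + M ≤ 1 + f₂ := by
    refine two_le hne hpos hf₁1 hM (fun h hh τ hτ => ?_) hb1 hd2
    obtain ⟨K, hK⟩ := ha h hh
    refine (hK τ hτ).mono 0 ?_
    rintro J - F A ⟨B, k1, k2, k3⟩
    exact ⟨B, k1, k2, LbR.cel le_rfl k3⟩
  obtain ⟨x, hx⟩ : ∃ x, x = min (f₂' - f₂) (M - f₂) := ⟨_, rfl⟩
  rw [← hx] at hcon
  have hx1 : x ≤ f₂' - f₂ := by rw [hx]; exact min_le_left _ _
  have hx2 : x ≤ M - f₂ := by rw [hx]; exact min_le_right _ _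
  obtain ⟨D, hD⟩ : ∃ D, D = f₁ + x - f₁' := ⟨_, rfl⟩
  have hD0 : 0 < D := by rw [hD]; linarith
  have hx0 : 0 < x := by linarith
  have hl2 : 1 / 2 < Real.log 2 := by
    have := Real.log_two_gt_d9
    linarith only [this]
  obtain ⟨κ, hκ, g1⟩ := Pool.ZFN.bas_sh ((((hd (D / 32) (by linarith)).and
    (hd2 (D / 32) (by linarith))).and (he1 (D / 32) (by linarith))).and hpos)
  obtain ⟨K, hK⟩ := ha (D / 32) (by linarith)
  obtain ⟨Φ, hΦ⟩ : ∃ Φ : Fin 4 → Stat m, Φ = fun j J F B => match j with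
      | 0 => LbR 1 F (insert k₁ I) k₂ K ⌊w * J⌋₊ ⌊(M - D / 32) * J⌋₊ B
      | 1 => Cel F I k₂ ⌊w * J⌋₊ ⌊(f₂ - D / 32) * J⌋₊ B
      | 2 => Cel F I k₁ ⌊w * J⌋₊ ⌊(f₁ - D / 32) * J⌋₊ B
      | 3 => Cel F I k₂ ⌊w' * J⌋₊ ⌊(f₂' - D / 32) * J⌋₊ B := ⟨_, rfl⟩
  have g2 := bas_iter (S := S) (Φ := Φ) (fun j J F A B hB hh => by
      rw [hΦ] at hh ⊢
      match j with
      | 0 => exact LbR.sub hB hh
      | 1 => exact Cel.sub hh hB
      | 2 => exact Cel.sub hh hB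
      | 3 => exact Cel.sub hh hB) (fun j τ hτ => by
      rw [hΦ]
      match j with
      | 0 => exact hK τ hτ
      | 1 => exact hb (D / 32) (by linarith) τ hτ
      | 2 => exact hb1 (D / 32) (by linarith) τ hτ
      | 3 => exact hc2 (D / 32) (by linarith) τ hτ) (half_pos hκ)
  obtain ⟨C, hC⟩ : ∃ C : ℝ, C = Real.log ((2 * K + 2 : ℕ)) + Real.log 27 +
      (Real.log 11 + Real.log 11 + Real.log 15 + 6) := ⟨_, rfl⟩
  obtain ⟨J₁, hJ₁⟩ := exists_nat_gt (C / (D / 16))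
  obtain ⟨J₂, hJ₂⟩ := exists_nat_gt (1 / (κ / 2))
  refine bas_no hne ((g1.and g2).mono (max J₁ J₂) ?_)
  rintro J hJ F A ⟨k1, B, k2, k3, k4⟩
  have hJ0 : (0 : ℝ) ≤ J := Nat.cast_nonneg J
  have hJ1 : (J₁ : ℝ) ≤ J := by exact_mod_cast (le_max_left _ _).trans hJ
  have hJ2 : (J₂ : ℝ) ≤ J := by exact_mod_cast (le_max_right _ _).trans hJ
  replace hJ1 := hJ₁.trans_le hJ1
  replace hJ2 := hJ₂.trans_le hJ2
  rw [div_lt_iff₀ (by linarith)] at hJ1 hJ2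
  rw [hΦ] at k4
  have l1 : LbR 1 F (insert k₁ I) k₂ K ⌊w * J⌋₊ ⌊(M - D / 32) * J⌋₊ B := k4 0
  have l2 : Cel F I k₂ ⌊w * J⌋₊ ⌊(f₂ - D / 32) * J⌋₊ B := k4 1
  have l3 : Cel F I k₁ ⌊w * J⌋₊ ⌊(f₁ - D / 32) * J⌋₊ B := k4 2
  have l4 : Cel F I k₂ ⌊w' * J⌋₊ ⌊(f₂' - D / 32) * J⌋₊ B := k4 3
  obtain ⟨L, hL⟩ : ∃ L : ℝ, L = Real.log 2 * J := ⟨_, rfl⟩
  have hL0 : 0 ≤ L := by rw [hL]; exact mul_nonneg (by linarith) hJ0
  obtain ⟨Γ, hΓ⟩ : ∃ Γ, Γ = Real.exp ((f₁ - f₂ + D / 4) * L) := ⟨_, rfl⟩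
  have hΓ0 : 0 < Γ := by rw [hΓ]; exact Real.exp_pos _
  obtain ⟨BD, GD, V, z, z', lB, lG, m1, m2, m3, m4, m5, m6⟩ := lipcore h1 l1 l2 hΓ0
  have hPe := Pool.K2S.Pe_or F.isLaw m3
  have hA0 : 0 ≤ Pe F.p A := Pe_nonneg F.isLaw A
  have hhalf : ∀ B' : F.Ω → Prop, Pe F.p B ≤ 2 * Pe F.p B' →
      Real.exp (-(κ * J)) * Pe F.p A ≤ Pe F.p B' := by
    intro B' hB'
    have e1 : Real.exp (-(κ * J)) = Real.exp (-(κ / 2 * J)) * Real.exp (-(κ / 2 * J)) := by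
      rw [← Real.exp_add]
      congr 1
      ring
    have e2 : 2 * Real.exp (-(κ / 2 * J)) ≤ 1 := by
      have e3 : 2 ≤ Real.exp (κ / 2 * J) := by
        have := Real.add_one_le_exp (κ / 2 * (J : ℝ))
        linarith
      have e4 := mul_le_mul_of_nonneg_right e3 (Real.exp_pos (-(κ / 2 * (J : ℝ)))).le
      rwa [← Real.exp_add, add_neg_cancel, Real.exp_zero] at e4
    have e5 : 0 ≤ Real.exp (-(κ / 2 * J)) * Pe F.p A := by positivity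
    rw [e1]
    nlinarith only [e2, e5, k3, hB', mul_le_mul_of_nonneg_right e2 e5]
  have hexp2 : (2 : ℝ) ^ J = Real.exp L := by
    rw [hL, Real.exp_mul, Real.exp_log two_pos, Real.rpow_natCast]
  have i1 := inv_fl (M - D / 32) J
  have i2 := inv_fl (f₂ - D / 32) J
  have i3 := inv_fl (f₁ - D / 32) J
  have i4 := inv_fl (f₂' - D / 32) J
  have i5 := inv_fl (f₁ + x) J
  have j1 := pow_fl (show 0 ≤ f₁ + x by linarith) J
  have j2 := pow_fl (show 0 ≤ f₂ + x by linarith) J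
  rw [← hL] at i1 i2 i3 i4 i5 j1 j2
  have hend : C < D / 8 * L := by
    have : D / 8 * (1 / 2 * J) ≤ D / 8 * L := by
      rw [hL]
      exact mul_le_mul_of_nonneg_left (mul_le_mul_of_nonneg_right hl2.le hJ0) (by linarith)
    linarith
  have hlg : ∀ a : ℝ, 1 ≤ a → 0 ≤ Real.log a := fun a ha => Real.log_nonneg ha
  have hg11 := hlg 11 (by norm_num)
  have hg15 := hlg 15 (by norm_num)
  have hg27 := hlg 27 (by norm_num)
  rcases le_or_gt (Pe F.p B) (2 * Pe F.p BD) with hcase | hcase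
  · -- the steep part is large
    obtain ⟨⟨⟨n1, -⟩, -⟩, n2⟩ := k1 BD (fun ω hω => k2 ω (m1 ω hω)) (hhalf BD hcase)
    have hq := isLaw_cond F.isLaw n2
    have hqA : ∀ ω, 0 < Pool.Agent.H49.Ent.cond F.p BD True ω → BD ω := fun ω hω =>
      of_eq_true ((cond_pos_iff F.isLaw.nonneg BD True ω).1 hω).2
    have n4 := CH_lab hq.nonneg hq.sum_one (fun ω => F.X J ω k₁)
      (fun ω => (ub I (F.X J ω), z' (slam F ⌊w * J⌋₊ ω), F.W ω)) lB
      (L := 2 ^ J * (2 * (1 / 2 ^ ⌊(M - D / 32) * J⌋₊ + 2 / 2 ^ ⌊(f₂ - D / 32) * J⌋₊) / Γ) + 1)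
      (fun ω ω' hω hω' hc hl => by
        have c1 := Prod.ext_iff.mp hc
        have c2 := Prod.ext_iff.mp c1.2
        refine dg_near (m5 ω ω' (hqA ω hω) (hqA ω' hω') (congrArg Prod.fst c2.2) c2.1
          (fun i hi => ?_) hl)
        have := congrFun c1.1 i
        simp only [ub, if_pos hi] at this
        exact this)
    have n5 := (n1 V z z' fun ω hω => m4 ω (m1 ω hω)).trans n4
    have hx' : (2 : ℝ) ^ J * (2 * (1 / 2 ^ ⌊(M - D / 32) * J⌋₊ + 2 / 2 ^ ⌊(f₂ - D / 32) * J⌋₊) / Γ)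
        ≤ 12 * Real.exp ((1 - f₁ + D / 32 - D / 4) * L) := by
      have e1 : Real.exp (-((M - D / 32) * L)) ≤ Real.exp (-((f₂ - D / 32) * L)) := by
        refine Real.exp_le_exp.2 ?_
        nlinarith only [mul_le_mul_of_nonneg_right (show f₂ ≤ M by linarith) hL0]
      have e0 : (2 : ℝ) / 2 ^ ⌊(f₂ - D / 32) * J⌋₊ = 2 * (1 / 2 ^ ⌊(f₂ - D / 32) * J⌋₊) := by ring
      have e2 : 2 * (1 / 2 ^ ⌊(M - D / 32) * J⌋₊ + 2 / 2 ^ ⌊(f₂ - D / 32) * J⌋₊) ≤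
          12 * Real.exp (-((f₂ - D / 32) * L)) := by
        rw [e0]
        linarith
      calc _ ≤ (2 : ℝ) ^ J * (12 * Real.exp (-((f₂ - D / 32) * L)) / Γ) :=
            mul_le_mul_of_nonneg_left (div_le_div_of_nonneg_right e2 hΓ0.le) (by positivity)
        _ = 12 * Real.exp ((1 - f₁ + D / 32 - D / 4) * L) := by
            rw [hexp2, hΓ, div_eq_mul_inv, ← Real.exp_neg]
            rw [show Real.exp L * (12 * Real.exp (-((f₂ - D / 32) * L)) *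
              Real.exp (-((f₁ - f₂ + D / 4) * L))) = 12 * (Real.exp L *
              Real.exp (-((f₂ - D / 32) * L)) * Real.exp (-((f₁ - f₂ + D / 4) * L))) by ring,
              ← Real.exp_add, ← Real.exp_add]
            congr 2
            ring
    rcases le_or_gt 0 (1 - f₁ + D / 32 - D / 4) with hs | hs
    · have n6 := log_bdK (by norm_num) (by positivity) hx' (mul_nonneg hs hL0)
      have e7 : (2 : ℝ) * 12 + 3 = 27 := by norm_num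
      rw [e7] at n6
      have n7 : (1 - f₁ - D / 32) * Real.log 2 * J = (1 - f₁ + D / 32 - D / 4) * L +
          3 * (D / 16 * L) := by
        rw [hL]
        ring
      have n8 : 0 ≤ D / 16 * L := by positivity
      linarith only [n5, n6, n7, hend, hC, n8, hg11, hg15]
    · exfalso
      have : D ≤ 1 - f₁ := by
        rw [hD]
        linarith
      linarith
  · -- the flat part is large
    obtain ⟨⟨⟨-, n1⟩, n1'⟩, n2⟩ := k1 GD (fun ω hω => k2 ω (m2 ω hω)) (hhalf GD (by linarith))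
    have n5 := exchB_fam n2 hΓ0.le (P₁ := ⌊(M - D / 32) * J⌋₊) (Nat.floor_le_floor
      (mul_le_mul_of_nonneg_right hww hJ0)) (Pool.GEN.fl_le hw1 J)
      (Pool.GEN.fl_le (show f₁ + x ≤ 1 by linarith) J)
      (Pool.GEN.fl_le (show f₂ + x ≤ 1 by linarith) J) (fun ω hω => m4 ω (m2 ω hω)) m6
      (l3.sub m2) (l4.sub m2) n1 n1'
    have t0 : ∀ n : ℕ, (2 : ℝ) / 2 ^ n = 2 * (1 / 2 ^ n) := fun n => by ring
    have b5 : (2 : ℝ) ^ ⌊(f₂ + x) * J⌋₊ * (2 / 2 ^ ⌊(f₂' - D / 32) * J⌋₊) ≤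
        4 * Real.exp (D / 32 * L) := by
      rw [t0]
      calc _ ≤ Real.exp ((f₂ + x) * L) * (2 * (2 * Real.exp (-((f₂' - D / 32) * L)))) :=
            mul_le_mul j2 (by linarith) (by positivity) (Real.exp_pos _).le
        _ = 4 * Real.exp ((f₂ + x) * L + -((f₂' - D / 32) * L)) := by
            rw [Real.exp_add]
            ring
        _ ≤ _ := by
            refine mul_le_mul_of_nonneg_left (Real.exp_le_exp.2 ?_) (by norm_num)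
            have := mul_le_mul_of_nonneg_right (show f₂ + x - (f₂' - D / 32) ≤ D / 32 by linarith)
              hL0
            linarith
    have b3 : (2 : ℝ) ^ ⌊(f₁ + x) * J⌋₊ * (2 / 2 ^ ⌊(f₁ - D / 32) * J⌋₊) ≤
        4 * Real.exp ((x + D / 32) * L) := by
      rw [t0]
      calc _ ≤ Real.exp ((f₁ + x) * L) * (2 * (2 * Real.exp (-((f₁ - D / 32) * L)))) :=
            mul_le_mul j1 (by linarith) (by positivity) (Real.exp_pos _).le
        _ = 4 * Real.exp ((f₁ + x) * L + -((f₁ - D / 32) * L)) := by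
            rw [Real.exp_add]
            ring
        _ = _ := by
            congr 2
            ring
    have b1 : (2 : ℝ) ^ ⌊(f₂ + x) * J⌋₊ * (2 / 2 ^ ⌊(M - D / 32) * J⌋₊ +
        Γ * (1 / 2 ^ ⌊(f₁ + x) * J⌋₊)) ≤ 6 * Real.exp (D / 4 * L) := by
      rw [t0, mul_add]
      have e1 : (2 : ℝ) ^ ⌊(f₂ + x) * J⌋₊ * (2 * (1 / 2 ^ ⌊(M - D / 32) * J⌋₊)) ≤
          4 * Real.exp (D / 4 * L) := by
        calc _ ≤ Real.exp ((f₂ + x) * L) * (2 * (2 * Real.exp (-((M - D / 32) * L)))) :=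
              mul_le_mul j2 (by linarith) (by positivity) (Real.exp_pos _).le
          _ = 4 * Real.exp ((f₂ + x) * L + -((M - D / 32) * L)) := by
              rw [Real.exp_add]
              ring
          _ ≤ _ := by
              refine mul_le_mul_of_nonneg_left (Real.exp_le_exp.2 ?_) (by norm_num)
              have := mul_le_mul_of_nonneg_right (show f₂ + x - (M - D / 32) ≤ D / 4 by linarith)
                hL0
              linarith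
      have e2 : (2 : ℝ) ^ ⌊(f₂ + x) * J⌋₊ * (Γ * (1 / 2 ^ ⌊(f₁ + x) * J⌋₊)) ≤
          2 * Real.exp (D / 4 * L) := by
        calc _ ≤ Real.exp ((f₂ + x) * L) * (Γ * (2 * Real.exp (-((f₁ + x) * L)))) :=
              mul_le_mul j2 (mul_le_mul_of_nonneg_left i5 hΓ0.le) (by positivity)
                (Real.exp_pos _).le
          _ = 2 * Real.exp ((f₂ + x) * L + (f₁ - f₂ + D / 4) * L + -((f₁ + x) * L)) := by
              rw [hΓ, Real.exp_add, Real.exp_add]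
              ring
          _ = _ := by
              congr 2
              ring
      linarith
    have c5 := log_bdK (by norm_num) (by positivity) b5 (by positivity)
    have c3 := log_bdK (by norm_num) (by positivity) b3 (by positivity)
    have c1 := log_bdK (by norm_num) (by positivity) b1 (by positivity)
    have e7 : (2 : ℝ) * 4 + 3 = 11 := by norm_num
    have e8 : (2 : ℝ) * 6 + 3 = 15 := by norm_num
    rw [e7] at c5 c3
    rw [e8] at c1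
    have d1 := tail_fl (a := f₂ + x) J
    have d2 := tail_fl (a := f₁ + x) J
    rw [← hL] at d1 d2
    have n7 : (1 - f₁' - D / 32) * Real.log 2 * J = (1 - f₁' - D / 32) * L := by
      rw [hL]
      ring
    have n8 : (1 - f₂ - D / 32) * Real.log 2 * J = (1 - f₂ - D / 32) * L := by
      rw [hL]
      ring
    rw [n7, n8] at n5
    have n9 : (1 - f₁' - D / 32) * L + (1 - f₂ - D / 32) * L =
        D / 32 * L + (x + D / 32) * L + D / 4 * L + (1 - (f₂ + x)) * L + (1 - (f₁ + x)) * L +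
          5 * (D / 8 * L) := by
      rw [show f₁' = f₁ + x - D by rw [hD]; ring]
      ring
    have n10 : 0 ≤ D / 8 * L := by positivity
    linarith only [n5, n9, c5, c3, c1, d1, d2, hend, hC, n10, hg27]

end Pool.SWX
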