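import Pool.Agent.H35.SW.CDefs

/-!
TRA: how the embedding of `M` into an extension satisfying ZF behaves.
-/

set_option linter.unusedVariables false
set_option synthInstance.maxSize 100000

namespace SW

namespace Tra

section
variable {M N : Type} [SetStr M] [ZF M] [SetStr N] [ZF N]

/-- transitive embeddings -/
structure TE (i : M → N) : Prop where
  mem : ∀ x y, E (i x) (i y) ↔ E x y
  inj : ∀ x y, i x = i y ↔ x = y
  trans : ∀ z y, E z (i y) → ∃ x, E x y ∧ z = i x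

variable {i : M → N} (h : TE i)

include h

omit [ZF M] [ZF N] in
theorem TE.mem_iff {z : N} {y : M} : E z (i y) ↔ ∃ x, E x y ∧ z = i x :=
  ⟨h.trans z y, by rintro ⟨x, hx, rfl⟩; exact (h.mem _ _).2 hx⟩

theorem TE.emp : i emp = emp := by
  refine eq_emp fun z hz => ?_
  obtain ⟨x, hx, -⟩ := h.trans z _ hz
  exact not_mem_emp x hx

theorem TE.upair (a b : M) : i (upair a b) = SW.upair (i a) (i b) := by
  refine ext fun z => ?_
  rw [h.mem_iff, mem_upair]
  constructor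
  · rintro ⟨x, hx, rfl⟩
    rw [mem_upair] at hx
    rcases hx with rfl | rfl
    · exact Or.inl rfl
    · exact Or.inr rfl
  · rintro (rfl | rfl)
    · exact ⟨a, mem_upair.2 (Or.inl rfl), rfl⟩
    · exact ⟨b, mem_upair.2 (Or.inr rfl), rfl⟩

theorem TE.opair (a b : M) : i (opair a b) = SW.opair (i a) (i b) := by
  unfold SW.opair sing
  rw [h.upair, h.upair, h.upair]

theorem TE.ins (a b : M) : i (ins a b) = SW.ins (i a) (i b) := by
  refine ext fun z => ?_
  rw [h.mem_iff, mem_ins]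
  constructor
  · rintro ⟨x, hx, rfl⟩
    rw [mem_ins] at hx
    rcases hx with hx | rfl
    · exact Or.inl ((h.mem _ _).2 hx)
    · exact Or.inr rfl
  · rintro (hz | rfl)
    · obtain ⟨x, hx, rfl⟩ := h.trans _ _ hz
      exact ⟨x, mem_ins.2 (Or.inl hx), rfl⟩
    · exact ⟨a, mem_ins.2 (Or.inr rfl), rfl⟩

theorem TE.suc (a : M) : i (suc a) = SW.suc (i a) := h.ins a a

theorem TE.om : i om = om := by
  refine Sub.antisymm ?_ ?_
  · intro z hz
    by_contra hcon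
    obtain ⟨w, ⟨hw, hw'⟩, hmin⟩ := mem_min (C := fun z : N => E z (i SW.om) ∧ ¬ E z SW.om)
      inferInstance ⟨z, hz, hcon⟩
    obtain ⟨n, hn, rfl⟩ := h.trans _ _ hw
    rcases om_cases hn with rfl | ⟨k, hk, rfl⟩
    · apply hw'
      rw [h.emp]
      exact emp_mem_om
    · apply hw'
      rw [h.suc]
      refine suc_mem_om ?_
      by_contra h1
      exact hmin (i k) ((h.mem _ _).2 (mem_suc.2 (Or.inr rfl))) ⟨(h.mem _ _).2 hk, h1⟩
  · intro z hz
    refine mem_om.1 hz (i SW.om) ⟨?_, fun y hy => ?_⟩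
    · rw [← h.emp, h.mem]
      exact emp_mem_om
    · obtain ⟨n, hn, rfl⟩ := h.trans _ _ hy
      rw [← h.suc, h.mem]
      exact suc_mem_om hn

omit [ZF M] [ZF N] in
theorem TE.sub (a b : M) : Sub (i a) (i b) ↔ Sub a b := by
  constructor
  · intro h1 z hz
    exact (h.mem _ _).1 (h1 (i z) ((h.mem _ _).2 hz))
  · intro h1 z hz
    obtain ⟨x, hx, rfl⟩ := h.trans _ _ hz
    exact (h.mem _ _).2 (h1 x hx)

theorem TE.isOP (z a b : M) : IsOP (i z) (i a) (i b) ↔ IsOP z a b := by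
  rw [isOP_iff, isOP_iff, ← h.opair, h.inj]

theorem TE.pairIn (a b R : M) : PairIn (i a) (i b) (i R) ↔ PairIn a b R := by
  rw [pairIn_iff, pairIn_iff, ← h.opair, h.mem]

omit h in
theorem tripleIn_iff {a b c R : M} : TripleIn a b c R ↔ E (SW.opair (SW.opair a b) c) R := by
  constructor
  · rintro ⟨y, hy, hy'⟩
    rw [isOP_iff] at hy
    rw [pairIn_iff] at hy'
    rwa [← hy]
  · intro h
    exact ⟨_, isOP_iff.2 rfl, pairIn_iff.2 h⟩

theorem TE.tripleIn (a b c R : M) : TripleIn (i a) (i b) (i c) (i R) ↔ TripleIn a b c R := by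
  rw [tripleIn_iff, tripleIn_iff, ← h.opair, ← h.opair, h.mem]

omit [ZF M] [ZF N] in
theorem TE.tr (a : M) (ha : Trans a) : Trans (i a) := by
  intro y hy
  obtain ⟨x, hx, rfl⟩ := h.trans _ _ hy
  exact (h.sub _ _).2 (ha x hx)

theorem TE.ord (a : M) (ha : Ord a) : Ord (i a) := by
  refine ⟨h.tr a ha.1, fun y hy => ?_⟩
  obtain ⟨x, hx, rfl⟩ := h.trans _ _ hy
  exact h.tr x (ha.2 x hx)

theorem TE.opair_mem {a R : M} {y : N} (hy : E (SW.opair (i a) y) (i R)) :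
    ∃ b, y = i b ∧ E (SW.opair a b) R := by
  obtain ⟨z, hz, e⟩ := h.trans _ _ hy
  have h1 : E (SW.upair (i a) y) (i z) := by
    rw [← e]
    unfold SW.opair
    exact mem_upair.2 (Or.inr rfl)
  obtain ⟨t, ht, e1⟩ := h.trans _ _ h1
  have h2 : E y (i t) := by
    rw [← e1]
    exact mem_upair.2 (Or.inr rfl)
  obtain ⟨b, hb, rfl⟩ := h.trans _ _ h2
  refine ⟨b, rfl, ?_⟩
  rw [← h.opair, h.inj] at e
  rwa [e]

theorem TE.fnt (a : M) (ha : Fnt a) : Fnt (i a) := by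
  obtain ⟨n, hn, f, h1, h2, h3, h4⟩ := ha
  refine ⟨i n, ?_, i f, ?_, ?_, ?_, ?_⟩
  · rw [← h.om]
    exact (h.mem _ _).2 hn
  · intro j hj
    obtain ⟨j, hj1, rfl⟩ := h.trans _ _ hj
    obtain ⟨y, hy, hy'⟩ := h1 j hj1
    exact ⟨i y, (h.mem _ _).2 hy, by rw [← h.opair]; exact (h.mem _ _).2 hy'⟩
  · intro y hy
    obtain ⟨y, hy1, rfl⟩ := h.trans _ _ hy
    obtain ⟨j, hj, hj'⟩ := h2 y hy1
    exact ⟨i j, (h.mem _ _).2 hj, by rw [← h.opair]; exact (h.mem _ _).2 hj'⟩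
  · intro j y y' hj hy hy'
    obtain ⟨j, hj1, rfl⟩ := h.trans _ _ hj
    obtain ⟨y, rfl, hy1⟩ := h.opair_mem hy
    obtain ⟨y', rfl, hy1'⟩ := h.opair_mem hy'
    rw [h3 j y y' hj1 hy1 hy1']
  · intro j j' y hj hj' hy hjy hjy'
    obtain ⟨j, hj1, rfl⟩ := h.trans _ _ hj
    obtain ⟨j', hj1', rfl⟩ := h.trans _ _ hj'
    obtain ⟨y, hy1, rfl⟩ := h.trans _ _ hy
    rw [← h.opair, h.mem] at hjy hjy'
    rw [h4 j j' y hj1 hj1' hy1 hjy hjy']

theorem TE.hf (hfin : FinFacts N) (hhf : ∀ K : M, IsHF K → HFFacts K) (K : M) (hK : IsHF K) :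
    IsHF (i K) := by
  have hf := hhf K hK
  refine ⟨?_, ?_⟩
  · rw [hfClosed_iff]
    refine ⟨?_, ?_⟩
    · rw [← h.emp]
      exact (h.mem _ _).2 hf.emp
    · intro x y hx hy
      obtain ⟨x, hx1, rfl⟩ := h.trans _ _ hx
      obtain ⟨y, hy1, rfl⟩ := h.trans _ _ hy
      rw [← h.ins]
      exact (h.mem _ _).2 (hf.ins hx1 hy1)
  · intro Z hZ x hx
    by_contra hcon
    obtain ⟨w, ⟨hw, hw'⟩, hmin⟩ := mem_min (C := fun z : N => E z (i K) ∧ ¬ E z Z)
      inferInstance ⟨x, hx, hcon⟩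
    rw [hfClosed_iff] at hZ
    obtain ⟨a, ha, rfl⟩ := h.trans _ _ hw
    obtain ⟨hfa, hsa⟩ := hf.fin.1 ha
    have h1 : Sub (i a) Z := by
      intro z hz
      by_contra hz'
      exact hmin z hz ⟨(h.sub _ _).2 hsa z hz, hz'⟩
    have h2 : ∀ y : N, Fnt y → Sub y Z → E y Z := by
      refine hfin.ind (fun y : N => Sub y Z → E y Z) inferInstance (fun _ => hZ.1) ?_
      intro x a _ _ ih hs
      refine hZ.2 x a (ih fun z hz => hs z (mem_ins.2 (Or.inl hz))) (hs a (mem_ins.2 (Or.inr rfl)))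
    exact hw' (h2 _ (h.fnt a hfa) h1)

end

end Tra

/-- TRA -/
theorem tra (hemb : EMBStmt) (hfin : FINStmt) (hhf : HFStmt) : TRAStmt := by
  intro M _ _ F G hG _
  have he := hemb M F G hG
  have h : Tra.TE (emb F G) := ⟨he.mem, he.inj, he.trans⟩
  exact
    { opair := h.opair
      emp := h.emp
      ins := h.ins
      suc := h.suc
      om := h.om
      sub := h.sub
      isOP := h.isOP
      pairIn := h.pairIn
      tripleIn := h.tripleIn
      ord := h.ord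
      hf := h.hf (hfin (Ext F G)) (hhf M)
      fnt := h.fnt }

end SW
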