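import Mathlib.Algebra.Polynomial.Roots
import Mathlib.Analysis.Calculus.Deriv.Polynomial
import Mathlib.Analysis.Calculus.Deriv.MeanValue
import Mathlib.Topology.Algebra.Polynomial
import Mathlib.Topology.Order.IntermediateValue

/-!
# Two lemmas on polynomials in one variable

`steep`: the points with `|p| ≤ ε`, `|p'| > Γ` lie in few sets of diameter `≤ 2 ε / Γ`.
`flat`: the points with `|p'| ≤ Γ` lie in few sets on which `p` is `Γ`-Lipschitz.
-/

set_option autoImplicit false

namespace Pool.SWX

open Polynomial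

/-- The number of the roots below a point. -/
private noncomputable def rb (q : ℝ[X]) (x : ℝ) : ℕ := (q.roots.toFinset.filter (· < x)).card

/-- The number of the roots up to a point. -/
private noncomputable def ru (q : ℝ[X]) (x : ℝ) : ℕ := (q.roots.toFinset.filter (· ≤ x)).card

private theorem rb_le (q : ℝ[X]) (x : ℝ) : rb q x ≤ q.natDegree :=
  (Finset.card_filter_le _ _).trans ((Multiset.toFinset_card_le _).trans (card_roots' q))

private theorem ru_le (q : ℝ[X]) (x : ℝ) : ru q x ≤ q.natDegree :=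
  (Finset.card_filter_le _ _).trans ((Multiset.toFinset_card_le _).trans (card_roots' q))

private theorem rb_no {q : ℝ[X]} (hq : q ≠ 0) {x y r : ℝ} (h : rb q x = rb q y) (h1 : x ≤ r)
    (h2 : r < y) : q.eval r ≠ 0 := by
  intro h3
  have h4 : q.roots.toFinset.filter (· < x) ⊂ q.roots.toFinset.filter (· < y) := by
    rw [Finset.ssubset_iff_of_subset]
    · refine ⟨r, ?_, ?_⟩
      · simp only [Finset.mem_filter, Multiset.mem_toFinset]
        exact ⟨(mem_roots hq).2 h3, h2⟩
      · simp only [Finset.mem_filter, Multiset.mem_toFinset]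
        exact fun h5 => absurd h5.2 (not_lt.2 h1)
    · intro s hs
      simp only [Finset.mem_filter] at hs ⊢
      exact ⟨hs.1, hs.2.trans (h1.trans_lt h2)⟩
  exact absurd h (Finset.card_lt_card h4).ne

private theorem ru_no {q : ℝ[X]} (hq : q ≠ 0) {x y r : ℝ} (h : ru q x = ru q y) (h1 : x < r)
    (h2 : r ≤ y) : q.eval r ≠ 0 := by
  intro h3
  have h4 : q.roots.toFinset.filter (· ≤ x) ⊂ q.roots.toFinset.filter (· ≤ y) := by
    rw [Finset.ssubset_iff_of_subset]
    · refine ⟨r, ?_, ?_⟩
      · simp only [Finset.mem_filter, Multiset.mem_toFinset]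
        exact ⟨(mem_roots hq).2 h3, h2⟩
      · simp only [Finset.mem_filter, Multiset.mem_toFinset]
        exact fun h5 => absurd h5.2 (not_le.2 h1)
    · intro s hs
      simp only [Finset.mem_filter] at hs ⊢
      exact ⟨hs.1, hs.2.trans (h1.le.trans h2)⟩
  exact absurd h (Finset.card_lt_card h4).ne

private theorem nd_sub (p : ℝ[X]) {K : ℕ} (hK : p.natDegree ≤ K) (a : ℝ) :
    (derivative p - C a).natDegree ≤ K := by
  refine (natDegree_sub_le _ _).trans (max_le ?_ ?_)
  · exact (natDegree_derivative_le p).trans ((Nat.sub_le _ _).trans hK)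
  · rw [natDegree_C]
    exact Nat.zero_le _

private theorem slope (p : ℝ[X]) {x y : ℝ} (hxy : x < y) :
    ∃ c ∈ Set.Ioo x y, p.eval y - p.eval x = (derivative p).eval c * (y - x) := by
  obtain ⟨c, hc, h⟩ := exists_hasDerivAt_eq_slope (fun z => p.eval z)
    (fun z => (derivative p).eval z) hxy p.continuous.continuousOn (fun z _ => p.hasDerivAt z)
  refine ⟨c, hc, ?_⟩
  have h1 : y - x ≠ 0 := (sub_pos.2 hxy).ne'
  rw [h]
  field_simp

/-- Two points with the same label, of the same sign. -/
private theorem st_pos {p : ℝ[X]} {Γ : ℝ} (hG : 0 < Γ) {x y ε : ℝ} (hxy : x < y)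
    (hx : |p.eval x| ≤ ε) (hy : |p.eval y| ≤ ε) (h1 : Γ < (derivative p).eval x)
    (hr : rb (derivative p - C Γ) x = rb (derivative p - C Γ) y) : y - x ≤ 2 * ε / Γ := by
  have hq : derivative p - C Γ ≠ 0 := by
    intro h
    have h2 : (derivative p - C Γ).eval x = 0 := by rw [h, eval_zero]
    rw [eval_sub, eval_C] at h2
    linarith
  obtain ⟨c, hc, h3⟩ := slope p hxy
  have h4 : Γ < (derivative p).eval c := by
    by_contra h5
    push Not at h5
    have h6 : (0 : ℝ) ∈ (fun z => (derivative p - C Γ).eval z) '' Set.Icc x c := by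
      refine intermediate_value_Icc' hc.1.le (derivative p - C Γ).continuous.continuousOn ?_
      constructor
      · change (derivative p - C Γ).eval c ≤ 0
        rw [eval_sub, eval_C]
        linarith
      · change 0 ≤ (derivative p - C Γ).eval x
        rw [eval_sub, eval_C]
        linarith
    obtain ⟨r, hr1, hr2⟩ := h6
    exact rb_no hq hr hr1.1 (hr1.2.trans_lt hc.2) hr2
  have h7 : Γ * (y - x) ≤ 2 * ε := by
    have h8 : Γ * (y - x) ≤ (derivative p).eval c * (y - x) :=
      mul_le_mul_of_nonneg_right h4.le (sub_pos.2 hxy).le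
    have h9 := (abs_le.1 hx).1
    have h10 := (abs_le.1 hy).2
    linarith
  rw [le_div_iff₀ hG]
  linarith

/-- **The steep points.** -/
theorem steep (p : Polynomial ℝ) {Γ : ℝ} (hG : 0 < Γ) {K : ℕ} (hK : p.natDegree ≤ K) :
    ∃ l : ℝ → Fin (2 * K + 2), ∀ x y ε : ℝ, |p.eval x| ≤ ε → |p.eval y| ≤ ε →
      Γ < |p.derivative.eval x| → Γ < |p.derivative.eval y| → l x = l y →
      |x - y| ≤ 2 * ε / Γ := by
  classical
  have hn : ∀ x, rb (derivative p - C Γ) x ≤ K := fun x => (rb_le _ _).trans (nd_sub p hK Γ)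
  have hm : ∀ x, rb (derivative (-p) - C Γ) x ≤ K := fun x =>
    (rb_le _ _).trans (nd_sub (-p) (by rw [natDegree_neg]; exact hK) Γ)
  obtain ⟨l, hl⟩ : ∃ l : ℝ → Fin (2 * K + 2), ∀ x, (l x : ℕ) =
      if 0 < (derivative p).eval x then rb (derivative p - C Γ) x
      else K + 1 + rb (derivative (-p) - C Γ) x := by
    refine ⟨fun x => ⟨if 0 < (derivative p).eval x then rb (derivative p - C Γ) x
      else K + 1 + rb (derivative (-p) - C Γ) x, ?_⟩, fun x => rfl⟩
    split_ifs
    · have := hn x
      omega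
    · have := hm x
      omega
  refine ⟨l, ?_⟩
  have main : ∀ x y ε : ℝ, x < y → |p.eval x| ≤ ε → |p.eval y| ≤ ε →
      Γ < |p.derivative.eval x| → Γ < |p.derivative.eval y| → l x = l y →
      y - x ≤ 2 * ε / Γ := by
    intro x y ε hxy hx hy h1 h2 h3
    have h4 : (l x : ℕ) = l y := by rw [h3]
    rw [hl, hl] at h4
    by_cases h5 : 0 < (derivative p).eval x
    · rw [if_pos h5] at h4
      by_cases h6 : 0 < (derivative p).eval y
      · rw [if_pos h6] at h4
        rw [abs_of_pos h5] at h1
        exact st_pos hG hxy hx hy h1 h4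
      · rw [if_neg h6] at h4
        have := hn x
        omega
    · rw [if_neg h5] at h4
      by_cases h6 : 0 < (derivative p).eval y
      · rw [if_pos h6] at h4
        have := hn y
        omega
      · rw [if_neg h6] at h4
        rw [abs_of_nonpos (not_lt.1 h5)] at h1
        refine st_pos (p := -p) hG hxy (by rwa [eval_neg, abs_neg]) (by rwa [eval_neg, abs_neg])
          (by rwa [derivative_neg, eval_neg]) (by omega)
  intro x y ε hx hy h1 h2 h3
  rcases lt_trichotomy x y with h | h | h
  · rw [abs_sub_comm, abs_of_pos (sub_pos.2 h)]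
    exact main x y ε h hx hy h1 h2 h3
  · rw [h, sub_self, abs_zero]
    exact div_nonneg (mul_nonneg (by norm_num) ((abs_nonneg _).trans hx)) hG.le
  · rw [abs_of_pos (sub_pos.2 h)]
    exact main y x ε h hy hx h2 h1 h3.symm

/-- **The flat points.** -/
theorem flat (p : Polynomial ℝ) {Γ : ℝ} (hG : 0 < Γ) {K : ℕ} (hK : p.natDegree ≤ K) :
    ∃ l : ℝ → Fin (2 * K + 2), ∀ x y : ℝ, |p.derivative.eval x| ≤ Γ →
      |p.derivative.eval y| ≤ Γ → l x = l y → |p.eval x - p.eval y| ≤ Γ * |x - y| := by
  classical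
  obtain ⟨q, hq⟩ : ∃ q : ℝ[X], q = C (Γ ^ 2) - derivative p ^ 2 := ⟨_, rfl⟩
  have hqe : ∀ z, q.eval z = Γ ^ 2 - (derivative p).eval z ^ 2 := fun z => by
    rw [hq, eval_sub, eval_C, eval_pow]
  have hdeg : q.natDegree ≤ 2 * K := by
    rw [hq]
    refine (natDegree_sub_le _ _).trans (max_le ?_ ?_)
    · rw [natDegree_C]
      exact Nat.zero_le _
    · exact natDegree_pow_le.trans (Nat.mul_le_mul_left _
        ((natDegree_derivative_le p).trans ((Nat.sub_le _ _).trans hK)))
  obtain ⟨l, hl⟩ : ∃ l : ℝ → Fin (2 * K + 2), ∀ x, (l x : ℕ) = ru q x :=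
    ⟨fun x => ⟨ru q x, by have := (ru_le q x).trans hdeg; omega⟩, fun x => rfl⟩
  refine ⟨l, ?_⟩
  have main : ∀ x y : ℝ, x < y → |p.derivative.eval x| ≤ Γ → |p.derivative.eval y| ≤ Γ →
      l x = l y → |p.eval x - p.eval y| ≤ Γ * |x - y| := by
    intro x y hxy h1 h2 h3
    obtain ⟨c, hc, h4⟩ := slope p hxy
    have h5 : |(derivative p).eval c| ≤ Γ := by
      by_cases hq0 : q = 0
      · have h6 := hqe c
        rw [hq0, eval_zero] at h6
        exact abs_le_of_sq_le_sq (by linarith) hG.le
      · have h7 : ru q x = ru q y := by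
          rw [← hl, ← hl, h3]
        by_contra h8
        push Not at h8
        have h9 : q.eval c < 0 := by
          rw [hqe]
          have h10 : Γ ^ 2 < |(derivative p).eval c| ^ 2 :=
            pow_lt_pow_left₀ h8 hG.le (by norm_num)
          rw [sq_abs] at h10
          linarith
        have h11 : 0 ≤ q.eval y := by
          rw [hqe]
          have h12 : |(derivative p).eval y| ^ 2 ≤ Γ ^ 2 :=
            pow_le_pow_left₀ (abs_nonneg _) h2 2
          rw [sq_abs] at h12
          linarith
        obtain ⟨r, hr1, hr2⟩ : (0 : ℝ) ∈ (fun z => q.eval z) '' Set.Icc c y :=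
          intermediate_value_Icc hc.2.le q.continuous.continuousOn ⟨h9.le, h11⟩
        exact ru_no hq0 h7 (hc.1.trans_le hr1.1) hr1.2 hr2
    have h6 : p.eval x - p.eval y = -((derivative p).eval c * (y - x)) := by
      rw [← h4]
      ring
    rw [h6, abs_neg, abs_mul, abs_sub_comm x y]
    exact mul_le_mul_of_nonneg_right h5 (abs_nonneg _)
  intro x y h1 h2 h3
  rcases lt_trichotomy x y with h | h | h
  · exact main x y h h1 h2 h3
  · rw [h, sub_self, sub_self, abs_zero, mul_zero]
  · rw [abs_sub_comm, abs_sub_comm x y]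
    exact main y x h h2 h1 h3.symm

end Pool.SWX
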